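import Pool.Agent.N924.TH.Good
import Pool.Agent.N666.TM.Diag

set_option autoImplicit false

/-! # One null set for all pairs of polynomials -/

namespace Pool.Agent.N924.TH

open MvPolynomial Finset Filter NumberField
open Pool.Agent.R424.MP (ev CoprimeTo)
open Pool.Agent.N666.TM
open Pool.Agent.N666.VE (primes)
open Pool.Agent.Y722.HS Pool.Agent.Y722.LS

/-- a zero in the field of rational functions of `t` over a number field -/
def HasRoot {s : ℕ} (h : Polynomial (MvPolynomial (Fin s) ℤ)) : Prop :=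
  ∃ (K : Type) (_ : Field K) (_ : NumberField K) (a b : MvPolynomial (Fin s) (𝓞 K)), IsRoot h a b

/-- the data of one condition -/
structure Dt where
  s : ℕ
  σ : Fin (s + 1) → ℕ
  inj : Function.Injective σ
  h : Polynomial (MvPolynomial (Fin s) ℤ)
  g : Polynomial (MvPolynomial (Fin s) ℤ)
  h0 : h ≠ 0
  cop : CoprimeTo h g
  root : HasRoot h
  P₀ : ℕ

theorem countable_dt : Countable Dt := by
  have h1 : ∀ s : ℕ, Countable (Polynomial (MvPolynomial (Fin s) ℤ)) := fun s => by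
    have : Countable (MvPolynomial (Fin s) ℤ) := by
      rw [← Cardinal.mk_le_aleph0_iff]
      exact (MvPolynomial.cardinalMk_le_max (σ := Fin s) (R := ℤ)).trans (by simp)
    rw [← Cardinal.mk_le_aleph0_iff]
    exact Polynomial.cardinalMk_le_max.trans (by simp)
  let f : Dt → Σ s : ℕ, (Fin (s + 1) → ℕ) × Polynomial (MvPolynomial (Fin s) ℤ) ×
      Polynomial (MvPolynomial (Fin s) ℤ) × ℕ := fun d => ⟨d.s, d.σ, d.h, d.g, d.P₀⟩
  have hf : Function.Injective f := by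
    rintro ⟨s, σ, i, h, g, h0, c, r, P⟩ ⟨s', σ', i', h', g', h0', c', r', P'⟩ heq
    simp only [f] at heq
    obtain ⟨rfl, h2⟩ := Sigma.mk.inj_iff.mp heq
    have h3 := eq_of_heq h2
    simp only [Prod.mk.injEq] at h3
    obtain ⟨rfl, rfl, rfl, rfl⟩ := h3
    rfl
  exact hf.countable

/-- uniform distribution of all finite subfamilies modulo all `q`, along the sets `S N` -/
def UD (S : ℕ → Finset ℕ) (z : ℕ → ℕ → ℤ) : Prop :=
  ∀ (r : ℕ) (σ : Fin r → ℕ), Function.Injective σ → ∀ q : ℕ, 1 ≤ q → ∀ ρ : Fin r → ℤ,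
    Tendsto (fun N => ({t : ℕ | t ∈ S N ∧ ∀ i, (q : ℤ) ∣ z (σ i) t - ρ i}.ncard : ℝ) / (S N).card)
      atTop (nhds (1 / (q : ℝ) ^ r))

theorem red_eq_iff {r q : ℕ} (hq : 1 ≤ q) (x : Fin r → ℤ) (ρ : Fin r → ZMod q) :
    red q x = ρ ↔ ∀ i, (q : ℤ) ∣ x i - ((ρ i).val : ℤ) := by
  have : NeZero q := ⟨by omega⟩
  constructor
  · rintro rfl i
    rw [← dvd_neg, neg_sub, ← ZMod.intCast_eq_intCast_iff_dvd_sub]
    simp [red]
  · intro h
    funext i
    have h1 := h i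
    rw [← dvd_neg, neg_sub, ← ZMod.intCast_eq_intCast_iff_dvd_sub] at h1
    simpa [red] using h1

theorem UD.well {S : ℕ → Finset ℕ} {z : ℕ → ℕ → ℤ} (h : UD S z) {r : ℕ} {σ : Fin r → ℕ}
    (hσ : Function.Injective σ) (H : ℕ) :
    ∃ N₀ : ℕ, ∀ N : ℕ, N₀ ≤ N → Well (S N) (fun t i => z (σ i) t) H := by
  classical
  rw [← eventually_atTop]
  have hpos : ∀ᶠ N in atTop, 0 < (S N).card := by
    have h1 := h r σ hσ 1 le_rfl (fun _ => 0)
    have h2 : (0 : ℝ) < 1 / ((1 : ℕ) : ℝ) ^ r := by positivity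
    filter_upwards [h1.eventually (lt_mem_nhds h2)] with N hN
    by_contra h0
    have h3 : (S N).card = 0 := by omega
    rw [h3, Nat.cast_zero, div_zero] at hN
    exact lt_irrefl _ hN
  have hq : ∀ q : ℕ, 1 ≤ q → ∀ ρ : Fin r → ZMod q, ∀ᶠ N in atTop,
      |((#{n ∈ S N | red q (fun i => z (σ i) n) = ρ} : ℕ) : ℝ) / (S N).card -
        1 / (q : ℝ) ^ Fintype.card (Fin r)| ≤
      1 / (2 * H + 1) * (1 / (q : ℝ) ^ Fintype.card (Fin r)) := by
    intro q hq ρ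
    have h1 := h r σ hσ q hq (fun i => ((ρ i).val : ℤ))
    have hq0 : (0 : ℝ) < q := by exact_mod_cast hq
    have h2 : 0 < 1 / (2 * (H : ℝ) + 1) * (1 / (q : ℝ) ^ r) := by positivity
    rw [Metric.tendsto_atTop] at h1
    obtain ⟨N₀, hN₀⟩ := h1 _ h2
    filter_upwards [eventually_ge_atTop N₀] with N hN
    have h3 := hN₀ N hN
    rw [Real.dist_eq] at h3
    have e1 : ({t : ℕ | t ∈ S N ∧ ∀ i, (q : ℤ) ∣ z (σ i) t - ((ρ i).val : ℤ)}.ncard) =
        #{n ∈ S N | red q (fun i => z (σ i) n) = ρ} := by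
      rw [← Set.ncard_coe_finset]
      congr 1
      ext t
      rw [Finset.mem_coe, Finset.mem_filter, Set.mem_ofPred_eq]
      exact and_congr_right fun _ => (red_eq_iff hq _ _).symm
    rw [e1] at h3
    rw [Fintype.card_fin]
    exact h3.le
  have hall : ∀ᶠ N in atTop, ∀ q ∈ Finset.Icc 1 (2 * H + 1), ∀ ρ : Fin r → ZMod q,
      |((#{n ∈ S N | red q (fun i => z (σ i) n) = ρ} : ℕ) : ℝ) / (S N).card -
        1 / (q : ℝ) ^ Fintype.card (Fin r)| ≤
      1 / (2 * H + 1) * (1 / (q : ℝ) ^ Fintype.card (Fin r)) := by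
    rw [eventually_all_finset]
    intro q hqm
    rw [Finset.mem_Icc] at hqm
    have : NeZero q := ⟨by omega⟩
    rw [eventually_all]
    exact fun ρ => hq q hqm.1 ρ
  filter_upwards [hpos, hall] with N h1 h2
  exact ⟨h1, fun q hq1 hq2 ρ => h2 q (Finset.mem_Icc.mpr ⟨hq1, hq2⟩) ρ⟩

theorem null_union {S : ℕ → Finset ℕ} {ι : Type} (u : Finset ι) (B : ι → Set ℕ)
    (h : ∀ i ∈ u, NullIn S (B i)) : NullIn S {t | ∃ i ∈ u, t ∈ B i} := by
  classical
  induction u using Finset.induction_on with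
  | empty =>
    intro ε hε
    refine ⟨0, fun N _ => ?_⟩
    have e1 : {t : ℕ | t ∈ S N ∧ t ∈ {t | ∃ i ∈ (∅ : Finset ι), t ∈ B i}} = ∅ := by
      ext t
      simp
    rw [e1, Set.ncard_empty]
    push_cast
    positivity
  | insert i u hi ih =>
    intro ε hε
    obtain ⟨N₁, h1⟩ := ih (fun j hj => h j (Finset.mem_insert_of_mem hj)) (ε / 2) (by positivity)
    obtain ⟨N₂, h2⟩ := h i (Finset.mem_insert_self _ _) (ε / 2) (by positivity)
    refine ⟨max N₁ N₂, fun N hN => ?_⟩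
    have a1 := h1 N ((le_max_left _ _).trans hN)
    have a2 := h2 N ((le_max_right _ _).trans hN)
    have hsub : {t : ℕ | t ∈ S N ∧ t ∈ {t | ∃ j ∈ insert i u, t ∈ B j}} ⊆
        {t : ℕ | t ∈ S N ∧ t ∈ {t | ∃ j ∈ u, t ∈ B j}} ∪ {t : ℕ | t ∈ S N ∧ t ∈ B i} := by
      rintro t ⟨ht, j, hj, htj⟩
      rcases Finset.mem_insert.mp hj with rfl | hj
      · exact Or.inr ⟨ht, htj⟩
      · exact Or.inl ⟨ht, j, hj, htj⟩
    have hf1 : {t : ℕ | t ∈ S N ∧ t ∈ {t | ∃ j ∈ u, t ∈ B j}}.Finite :=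
      (Finset.finite_toSet (S N)).subset fun t ht => ht.1
    have hf2 : {t : ℕ | t ∈ S N ∧ t ∈ B i}.Finite :=
      (Finset.finite_toSet (S N)).subset fun t ht => ht.1
    have h3 := (Set.ncard_le_ncard hsub (hf1.union hf2)).trans (Set.ncard_union_le _ _)
    have h4 : ({t : ℕ | t ∈ S N ∧ t ∈ {t | ∃ j ∈ insert i u, t ∈ B j}}.ncard : ℝ) ≤
        ({t : ℕ | t ∈ S N ∧ t ∈ {t | ∃ j ∈ u, t ∈ B j}}.ncard : ℝ) +
        ({t : ℕ | t ∈ S N ∧ t ∈ B i}.ncard : ℝ) := by exact_mod_cast h3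
    linarith

/-- **One null set** for all finite sets of conditions. -/
theorem one_null {S₁ S₂ : ℕ → Finset ℕ} (hS₁ : ∀ N, S₁ N ⊆ Ioc N (2 * N))
    (hS₂ : ∀ N, S₂ N ⊆ Ioc N (2 * N)) {z : ℕ → ℕ → ℤ} (h₁ : UD S₁ z) (h₂ : UD S₂ z) :
    ∃ E : Set ℕ, NullIn S₁ E ∧ NullIn S₂ E ∧
      ∀ d : Dt, {t : ℕ | t ∉ E ∧ ¬ Good d.h d.g d.P₀ (fun i => z (d.σ i) t)}.Finite := by
  classical
  have hcd := countable_dt
  obtain ⟨f, hf⟩ := hcd.exists_injective_nat
  let B : Dt → Set ℕ := fun d => {t | ¬ Good d.h d.g d.P₀ (fun i => z (d.σ i) t)}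
  have hkey : ∀ d : Dt, NullIn S₁ (B d) ∧ NullIn S₂ (B d) := by
    intro d
    obtain ⟨K, _, _, α, β, hab⟩ := d.root
    exact ⟨null_bad (fun H => h₁.well d.inj H) d.h0 d.cop hab d.P₀,
      null_bad (fun H => h₂.well d.inj H) d.h0 d.cop hab d.P₀⟩
  have hfin : ∀ k : ℕ, {d : Dt | f d ≤ k}.Finite := fun k =>
    Set.Finite.preimage hf.injOn (Set.finite_le_nat k)
  let E : ℕ → Set ℕ := fun k => {t | ∃ d ∈ (hfin k).toFinset, t ∈ B d}
  have hmono : Monotone E := by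
    rintro k k' hkk t ⟨d, hd, ht⟩
    refine ⟨d, ?_, ht⟩
    rw [Set.Finite.mem_toFinset] at hd ⊢
    exact le_trans hd hkk
  obtain ⟨E', e1, e2, e3⟩ := diag hmono hS₁ hS₂
    (fun k => null_union _ _ fun d _ => (hkey d).1) (fun k => null_union _ _ fun d _ => (hkey d).2)
  refine ⟨E', e1, e2, fun d => (e3 (f d)).subset ?_⟩
  rintro t ⟨ht, hbad⟩
  refine ⟨⟨d, ?_, hbad⟩, ht⟩
  rw [Set.Finite.mem_toFinset]
  exact (le_refl (f d) : f d ≤ f d)

theorem ud_of_well {S : ℕ → Finset ℕ} {z : ℕ → ℕ → ℤ}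
    (h : ∀ (r : ℕ) (σ : Fin (r + 1) → ℕ), Function.Injective σ → ∃ κ : ℝ, 0 < κ ∧ ∃ N₀ : ℕ,
      ∀ N : ℕ, N₀ ≤ N → ∀ H : ℕ, (H : ℝ) ≤ (N : ℝ) ^ κ → Well (S N) (fun t i => z (σ i) t) H) :
    UD S z := by
  classical
  intro r σ hσ q hq ρ
  rcases Nat.eq_zero_or_pos r with rfl | hr
  · -- no condition
    obtain ⟨κ, hκ, N₀, hN₀⟩ := h 0 (fun _ => 0)
      (fun a b _ => Subsingleton.elim (α := Fin 1) a b)
    rw [pow_zero, div_one]
    refine tendsto_const_nhds.congr' ?_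
    filter_upwards [eventually_ge_atTop N₀] with N hN
    have h1 := (hN₀ N hN 0 (by simpa using (by positivity : (0 : ℝ) ≤ (N : ℝ) ^ κ))).pos
    have e1 : {t : ℕ | t ∈ S N ∧ ∀ i : Fin 0, (q : ℤ) ∣ z (σ i) t - ρ i} = ↑(S N) := by
      ext t
      simp
    rw [e1, Set.ncard_coe_finset, div_self]
    exact_mod_cast h1.ne'
  · obtain ⟨r, rfl⟩ : ∃ r', r = r' + 1 := ⟨r - 1, by omega⟩
    obtain ⟨κ, hκ, N₀, hN₀⟩ := h r σ hσ
    rw [Metric.tendsto_atTop]
    intro ε hε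
    obtain ⟨H, hH⟩ := exists_nat_gt (max (1 / ε) q)
    have hH1 : 1 / ε < H := lt_of_le_of_lt (le_max_left _ _) hH
    have hH2 : (q : ℝ) < H := lt_of_le_of_lt (le_max_right _ _) hH
    have hev : ∀ᶠ N : ℕ in atTop, (H : ℝ) ≤ (N : ℝ) ^ κ :=
      ((tendsto_rpow_atTop hκ).comp tendsto_natCast_atTop_atTop).eventually_ge_atTop _
    obtain ⟨N₁, hN₁⟩ := eventually_atTop.mp hev
    refine ⟨max N₀ N₁, fun N hN => ?_⟩
    have hw := hN₀ N ((le_max_left _ _).trans hN) H (hN₁ N ((le_max_right _ _).trans hN))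
    have hqH : q ≤ 2 * H + 1 := by
      have : q < H := by exact_mod_cast hH2
      omega
    have h1 := hw.dist q hq hqH (fun i => (ρ i : ZMod q))
    have e1 : ({t : ℕ | t ∈ S N ∧ ∀ i, (q : ℤ) ∣ z (σ i) t - ρ i}.ncard) =
        #{n ∈ S N | red q (fun i => z (σ i) n) = fun i => (ρ i : ZMod q)} := by
      rw [← Set.ncard_coe_finset]
      congr 1
      ext t
      rw [Finset.mem_coe, Finset.mem_filter, Set.mem_ofPred_eq]
      refine and_congr_right fun _ => ?_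
      constructor
      · intro h
        funext i
        change ((z (σ i) t : ℤ) : ZMod q) = _
        rw [eq_comm, ZMod.intCast_eq_intCast_iff_dvd_sub]
        exact h i
      · intro h i
        rw [← ZMod.intCast_eq_intCast_iff_dvd_sub, eq_comm]
        exact congrFun h i
    rw [Real.dist_eq, e1]
    rw [Fintype.card_fin] at h1
    refine lt_of_le_of_lt h1 ?_
    have hq1 : (1 : ℝ) ≤ q := by exact_mod_cast hq
    have h2 : 1 / (q : ℝ) ^ (r + 1) ≤ 1 := by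
      rw [div_le_one (by positivity)]
      exact one_le_pow₀ hq1
    have h3 : 1 / (2 * (H : ℝ) + 1) < ε := by
      have hH0 : (0 : ℝ) < H := lt_trans (by positivity) hH1
      rw [div_lt_iff₀ hε] at hH1
      rw [div_lt_iff₀ (by positivity)]
      nlinarith
    calc 1 / (2 * (H : ℝ) + 1) * (1 / (q : ℝ) ^ (r + 1)) ≤ 1 / (2 * (H : ℝ) + 1) * 1 := by gcongr
      _ < ε := by rw [mul_one]; exact h3

/-- generalised polynomials, integers and primes -/
theorem ud_fl {F : ℕ → Finset ℝ} {a : ℕ → ℝ → ℝ} {c : ℕ → ℝ}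
    (h : ∀ i, c i ∈ F i ∧ (∀ t ∈ F i, t ≤ c i) ∧ 0 < c i ∧ (∀ m : ℕ, c i ≠ m) ∧ 0 < a i (c i))
    (hc : Function.Injective c) : UD (fun N => Ioc N (2 * N)) (flo F a) ∧ UD primes (flo F a) := by
  constructor
  · refine ud_of_well fun r σ hσ => ?_
    obtain ⟨⟨κ₁, hκ₁, w₁⟩, -⟩ := fl_well (ι := Fin (r + 1))
      (F := fun i => F (σ i)) (a := fun i => a (σ i)) (c := fun i => c (σ i)) (fun i => h _)
      (hc.comp hσ)
    exact ⟨κ₁, hκ₁, w₁⟩
  · refine ud_of_well fun r σ hσ => ?_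
    obtain ⟨-, ⟨κ₁, hκ₁, w₁⟩⟩ := fl_well (ι := Fin (r + 1))
      (F := fun i => F (σ i)) (a := fun i => a (σ i)) (c := fun i => c (σ i)) (fun i => h _)
      (hc.comp hσ)
    exact ⟨κ₁, hκ₁, w₁⟩

end Pool.Agent.N924.TH
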