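import Pool.Agent.N924.TH.Zero
import Pool.Agent.N666.TM.Turan
import Pool.Agent.Helper932.SplitPrimes

set_option autoImplicit false

/-! # Large primes dividing the values of polynomials along well distributed sequences -/

namespace Pool.Agent.N924.TH

open MvPolynomial Finset Filter NumberField
open Pool.Agent.R424.MP (ev CoprimeTo)
open Pool.Agent.N666.TM
open Pool.Agent.Y722.HS Pool.Agent.Y722.LS

variable {s : ℕ}

/-- the value of `h` is not zero and has a prime divisor above `P₀` which does not divide the value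
of `g` -/
def Good (h g : Polynomial (MvPolynomial (Fin s) ℤ)) (P₀ : ℕ) (z : Fin (s + 1) → ℤ) : Prop :=
  ev (z 0) (fun i => z i.succ) h ≠ 0 ∧ ∃ p : ℕ, p.Prime ∧ P₀ < p ∧
    (p : ℤ) ∣ ev (z 0) (fun i => z i.succ) h ∧ ¬ (p : ℤ) ∣ ev (z 0) (fun i => z i.succ) g

theorem null_bad {S : ℕ → Finset ℕ} {x : ℕ → Fin (s + 1) → ℤ}
    (hw : ∀ H : ℕ, ∃ N₀ : ℕ, ∀ N : ℕ, N₀ ≤ N → Well (S N) x H)
    {K : Type} [Field K] [NumberField K] {h g : Polynomial (MvPolynomial (Fin s) ℤ)}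
    (hh : h ≠ 0) (hcop : CoprimeTo h g) {a b : MvPolynomial (Fin s) (𝓞 K)} (hab : IsRoot h a b)
    (P₀ : ℕ) : ∀ ε : ℝ, 0 < ε → ∃ N₀ : ℕ, ∀ N : ℕ, N₀ ≤ N →
      ({t : ℕ | t ∈ S N ∧ t ∈ {t | ¬ Good h g P₀ (x t)}}.ncard : ℝ) ≤ ε * (S N).card := by
  classical
  intro ε hε
  obtain ⟨C₁, D, hzero⟩ := ncard_zeros hh
  obtain ⟨C₂, hom⟩ := ncard_omega hcop hab
  -- the primes of the sieve
  obtain ⟨P, hP, hPsum, -⟩ := Pool.Agent.Helper932.exists_finset_sum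
    (Pool.Agent.Helper932.not_summable_split (K := K)) (16 / ε) (by positivity) (P₀ + C₂)
  -- a large prime
  obtain ⟨p₁, hp₁, hp₁p⟩ := Nat.exists_infinite_primes (C₁ + 1 + ⌈4 * (D : ℝ) / ε⌉₊)
  obtain ⟨y, hy⟩ : ∃ y : ℕ, ∀ p ∈ P, p < y := ⟨P.sup id + 1, fun p hp =>
    Nat.lt_succ_of_le (Finset.le_sup (f := id) hp)⟩
  set H : ℕ := y ^ 2 + p₁ + ⌈16 / ε⌉₊ with hH
  obtain ⟨N₁, hN₁⟩ := hw H
  refine ⟨N₁, fun N hN => ?_⟩
  have hws := hN₁ N hN
  have hs : (0 : ℝ) < (S N).card := by exact_mod_cast hws.pos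
  -- zeros of `h`
  set Z : Set (Fin (s + 1) → ZMod p₁) := {v | evp v h = 0} with hZ
  have hZd : dens Z ≤ ε / 4 := by
    have h1 := hzero p₁ hp₁p (by omega)
    have hp0 : (0 : ℝ) < p₁ := by exact_mod_cast hp₁p.pos
    have h2 : (Z.ncard : ℝ) * p₁ ≤ D * (p₁ : ℝ) ^ (s + 1) := by exact_mod_cast h1
    have h3 : 4 * (D : ℝ) / ε ≤ p₁ := (Nat.le_ceil (4 * (D : ℝ) / ε)).trans
      (by exact_mod_cast (by omega : ⌈4 * (D : ℝ) / ε⌉₊ ≤ p₁))
    rw [div_le_iff₀ hε] at h3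
    unfold Pool.Agent.N666.TM.dens
    rw [Fintype.card_fin, div_le_iff₀ (by positivity)]
    have h4 : (D : ℝ) ≤ ε / 4 * p₁ := by linarith
    have h5 : (Z.ncard : ℝ) * p₁ ≤ (ε / 4 * (p₁ : ℝ) ^ (s + 1)) * p₁ := by
      calc (Z.ncard : ℝ) * p₁ ≤ D * (p₁ : ℝ) ^ (s + 1) := h2
        _ ≤ (ε / 4 * p₁) * (p₁ : ℝ) ^ (s + 1) := by gcongr
        _ = _ := by ring
    exact le_of_mul_le_mul_right h5 hp0
  have hzb : (((S N).filter fun n => red p₁ (x n) ∈ Z).card : ℝ) ≤ ε / 2 * (S N).card := by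
    have h1 := (abs_le.mp (SA_ind hws p₁ hp₁p.one_le (by omega) Z)).2
    have h2 : (1 : ℝ) / (2 * H + 1) ≤ 1 := by
      rw [div_le_one (by positivity)]
      have : (0 : ℝ) ≤ H := Nat.cast_nonneg H
      linarith
    have h3 : SA (S N) x (fun c => ind Z (red p₁ c)) ≤ ε / 2 := by
      have h4 : 1 / (2 * (H : ℝ) + 1) * dens Z ≤ 1 * dens Z :=
        mul_le_mul_of_nonneg_right h2 (dens_nonneg Z)
      linarith
    have h5 : SA (S N) x (fun c => ind Z (red p₁ c)) =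
        (((S N).filter fun n => red p₁ (x n) ∈ Z).card : ℝ) / (S N).card := by
      simp only [SA, ind]
      congr 1
      rw [Finset.card_filter]
      push_cast
      exact Finset.sum_congr rfl fun n _ => by by_cases h : red p₁ (x n) ∈ Z <;> simp [h]
    rw [h5, div_le_iff₀ hs] at h3
    exact h3
  -- the sieve
  have hPp : ∀ p ∈ P, p.Prime ∧ Nonempty (𝓞 K →+* ZMod p) ∧ P₀ + C₂ < p := fun p hp =>
    ⟨(hP p hp).1.1, (hP p hp).1.2, (hP p hp).2⟩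
  let Om : ∀ p : ℕ, Set (Fin (s + 1) → ZMod p) := fun p => {v | evp v h = 0 ∧ evp v g ≠ 0}
  have hOm : ∀ p ∈ P, 1 / 2 * (1 / (p : ℝ)) ≤ dens (Om p) := by
    intro p hp
    obtain ⟨h1, ⟨φ⟩, h3⟩ := hPp p hp
    have h4 := hom p h1 (by omega) φ
    have hp0 : (0 : ℝ) < p := by exact_mod_cast h1.pos
    have h5 : (p : ℝ) ^ s ≤ 2 * ((Om p).ncard : ℝ) := by exact_mod_cast h4
    unfold Pool.Agent.N666.TM.dens
    rw [Fintype.card_fin, le_div_iff₀ (by positivity), pow_succ]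
    calc 1 / 2 * (1 / (p : ℝ)) * ((p : ℝ) ^ s * p) = (p : ℝ) ^ s / 2 := by
          field_simp
      _ ≤ _ := by linarith
  have hμ : 8 / ε ≤ ∑ p ∈ P, dens (Om p) := by
    calc 8 / ε = 1 / 2 * (16 / ε) := by ring
      _ ≤ 1 / 2 * ∑ p ∈ P, 1 / (p : ℝ) := by gcongr
      _ = ∑ p ∈ P, 1 / 2 * (1 / (p : ℝ)) := by rw [Finset.mul_sum]
      _ ≤ _ := Finset.sum_le_sum hOm
  have hμ0 : 0 < ∑ p ∈ P, dens (Om p) := lt_of_lt_of_le (by positivity) hμ
  have h1 := turan hws P (fun p => p) (fun p hp => (hPp p hp).1.one_le)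
    (fun p hp p' hp' hne => (Nat.coprime_primes (hPp p hp).1 (hPp p' hp').1).mpr hne)
    (fun p hp p' hp' => by
      calc p * p' ≤ y * y := Nat.mul_le_mul (hy p hp).le (hy p' hp').le
        _ = y ^ 2 := by ring
        _ ≤ 2 * H + 1 := by omega)
    Om _ rfl hμ0
  have h2 : 2 / (∑ p ∈ P, dens (Om p)) ≤ ε / 4 := by
    rw [div_le_iff₀ hμ0]
    rw [div_le_iff₀ hε] at hμ
    linarith
  have h3 : (4 : ℝ) / (2 * H + 1) ≤ ε / 4 := by
    have h4 : 16 / ε ≤ (H : ℝ) := (Nat.le_ceil (16 / ε)).trans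
      (by exact_mod_cast (by omega : ⌈16 / ε⌉₊ ≤ H))
    rw [div_le_iff₀ hε] at h4
    rw [div_le_iff₀ (by positivity)]
    have : (0 : ℝ) ≤ H := Nat.cast_nonneg H
    nlinarith
  have hsv : (((S N).filter fun n => ∀ p ∈ P, red p (x n) ∉ Om p).card : ℝ) ≤
      ε / 2 * (S N).card := by
    have h4 : 2 / (∑ p ∈ P, Pool.Agent.N666.TM.dens (Om p)) + 4 / (2 * (H : ℝ) + 1) ≤ ε / 2 := by
      linarith
    refine le_trans (le_of_eq ?_) (h1.trans (mul_le_mul_of_nonneg_right h4 hs.le))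
    congr!
  -- together
  have hsub : {t : ℕ | t ∈ S N ∧ t ∈ {t | ¬ Good h g P₀ (x t)}} ⊆
      ↑(((S N).filter fun n => red p₁ (x n) ∈ Z) ∪
        ((S N).filter fun n => ∀ p ∈ P, red p (x n) ∉ Om p)) := by
    rintro t ⟨ht, hbad⟩
    rw [Finset.mem_coe, Finset.mem_union, Finset.mem_filter, Finset.mem_filter]
    by_contra hcon
    push Not at hcon
    obtain ⟨a1, a2⟩ := hcon
    obtain ⟨p, hp, hpΩ⟩ := a2 ht
    refine hbad ⟨fun h0 => a1 ht ?_, p, (hPp p hp).1, ?_, ?_, ?_⟩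
    · have := evp_red p₁ (x t) h
      rw [h0, Int.cast_zero] at this
      exact this.symm
    · have := (hPp p hp).2.2
      omega
    · exact (dvd_iff p (x t) h).mpr hpΩ.1
    · intro hd
      exact hpΩ.2 ((dvd_iff p (x t) g).mp hd)
  calc ({t : ℕ | t ∈ S N ∧ t ∈ {t | ¬ Good h g P₀ (x t)}}.ncard : ℝ)
      ≤ ((((S N).filter fun n => red p₁ (x n) ∈ Z) ∪
        ((S N).filter fun n => ∀ p ∈ P, red p (x n) ∉ Om p)).card : ℝ) := by
        rw [← Set.ncard_coe_finset]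
        exact_mod_cast Set.ncard_le_ncard hsub (Finset.finite_toSet _)
    _ ≤ (((S N).filter fun n => red p₁ (x n) ∈ Z).card : ℝ) +
        (((S N).filter fun n => ∀ p ∈ P, red p (x n) ∉ Om p).card : ℝ) := by
        exact_mod_cast Finset.card_union_le _ _
    _ ≤ ε / 2 * (S N).card + ε / 2 * (S N).card := add_le_add hzb hsv
    _ = ε * (S N).card := by ring

end Pool.Agent.N924.TH
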