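import Pool.Agent.N924.TH.Null
import Pool.Agent.R424.MP.Main
import Pool.Agent.R424.TG.Hdg

set_option autoImplicit false

/-! # Members of arithmetic families at good integral points (criterion of R424) -/

namespace Pool.Agent.N924.TH

open MvPolynomial NumberField
open Pool.Agent.R424.MP Pool.Agent.R424.TG
open Pool.Agent.Y152.RP.FamM (NoAtypical)

variable {s : ℕ}

/-- The local criterion at an integral point. -/
theorem member_good (K : Subfield ℂ) [Countable K] {κ : Type} [Finite κ] {n k N m M : ℕ}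
    (supp : κ → Finset (((Fin n ⊕ Fin k) ⊕ Fin N) →₀ ℕ))
    (c : κ → (((Fin n ⊕ Fin k) ⊕ Fin N) →₀ ℕ) → Polynomial (MvPolynomial (Fin s) ℤ))
    (h : Fin M → Polynomial (MvPolynomial (Fin s) ℤ))
    (e : Fin M → κ → (((Fin n ⊕ Fin k) ⊕ Fin N) →₀ ℕ) → ℕ)
    (he : ∀ l q, ∀ β ∈ supp q, HasOrd (h l) (c q β) (e l q β)) (hgen : GenericOrders m supp e)
    (Γ : Finset ℂ) (hΓ : ∀ γ ∈ Γ, IsAlgebraic ℚ γ) (hΓK : ∀ γ ∈ Γ, γ ∈ K) :
    ∃ (P₀ : ℕ) (G : Fin M → Polynomial (MvPolynomial (Fin s) ℤ)),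
      (∀ l, CoprimeTo (h l) (G l)) ∧ ∀ z : Fin (s + 1) → ℤ, (∀ l, Good (h l) (G l) P₀ z) →
        NoAtypical (algebraMap (Algebra.adjoin ℤ (Γ : Set ℂ)) ℂ) K m
          (solutions supp (fun q β => ((ev (z 0) (fun i => z i.succ) (c q β) : ℤ) : ℂ)) :
            Set (Fin n ⊕ Fin k → ℂ)) := by
  classical
  have := Fintype.ofFinite κ
  let ι := Σ q : κ, {β // β ∈ supp q}
  have hg : ∀ (l : Fin M) (x : ι), ∃ g, c x.1 x.2 = h l ^ e l x.1 x.2 * g ∧ CoprimeTo (h l) g :=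
    fun l x => he l x.1 _ x.2.2
  choose g hg1 hg2 using hg
  let G : Fin M → Polynomial (MvPolynomial (Fin s) ℤ) := fun l => ∏ x : ι, g l x
  have hcop : ∀ l, CoprimeTo (h l) (G l) := fun l => CoprimeTo.prod _ _ (hg2 l)
  obtain ⟨D₀, hD₀, halg⟩ := Pool.Agent.W466.ZP.alg_mem (fun z : Γ => (z : ℂ)) fun z => hΓ z z.2
  refine ⟨D₀, G, hcop, fun z hgood => ?_⟩
  have hK : ∀ a : Algebra.adjoin ℤ (Γ : Set ℂ),
      algebraMap (Algebra.adjoin ℤ (Γ : Set ℂ)) ℂ a ∈ K := by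
    intro a
    have hle : Algebra.adjoin ℤ (Γ : Set ℂ) ≤ subalgebraOfSubring K.toSubring :=
      Algebra.adjoin_le fun γ hγ => hΓK γ hγ
    exact hle a.2
  refine coreB (algebraMap (Algebra.adjoin ℤ (Γ : Set ℂ)) ℂ) K hK supp _
    fun r cls d L hd hr => ?_
  obtain ⟨l, hl⟩ := hgen r cls d L hd hr
  refine ⟨e l, hl, fun ρ x hx => ?_⟩
  obtain ⟨h0, p, hp, hpP, hph, hpG⟩ := hgood l
  have hxQ : AlgebraicIndependent ℚ x := hx.restrictScalars (algebraMap ℚ K).injective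
  obtain ⟨V, hV, hVx⟩ := place x hxQ hp
  have hp1 : V.valuation (p : ℂ) < 1 := by rwa [ValuationSubring.mem_nonunits_iff] at hV
  have hint : ∀ w : ℤ, V.valuation (w : ℂ) ≤ 1 := fun w => by
    rw [ValuationSubring.valuation_le_one_iff]
    exact intCast_mem V w
  refine ⟨V, V.valuation ((ev (z 0) (fun i => z i.succ) (h l) : ℤ) : ℂ), ?_, ?_,
    fun q β hβ => ?_, fun a => ?_, hVx⟩
  · rw [Valuation.ne_zero_iff]
    exact_mod_cast h0
  · obtain ⟨w, hw⟩ := hph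
    rw [hw]
    push_cast
    rw [map_mul]
    exact (mul_le_of_le_one_right' (hint w)).trans_lt hp1
  · have h1 := hg1 l ⟨q, β, hβ⟩
    have h2 : ¬ (p : ℤ) ∣ ev (z 0) (fun i => z i.succ) (g l ⟨q, β, hβ⟩) := by
      intro h3
      apply hpG
      change (p : ℤ) ∣ ev (z 0) (fun i => z i.succ) (∏ x : ι, g l x)
      rw [map_prod]
      exact h3.trans (Finset.dvd_prod_of_mem _ (Finset.mem_univ (⟨q, β, hβ⟩ : ι)))
    have h3 : ev (z 0) (fun i => z i.succ) (c q β) =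
        ev (z 0) (fun i => z i.succ) (h l) ^ e l q β *
          ev (z 0) (fun i => z i.succ) (g l ⟨q, β, hβ⟩) := by
      rw [h1, map_mul, map_pow]
    rw [h3]
    push_cast
    rw [map_mul, map_pow, Pool.Agent.W466.ZP.int_unit V hp hV _ h2, mul_one]
  · rw [ValuationSubring.valuation_le_one_iff]
    have hpD : ¬ p ∣ D₀ := fun h1 => by
      have := Nat.le_of_dvd hD₀ h1
      omega
    have hle : Algebra.adjoin ℤ (Γ : Set ℂ) ≤ subalgebraOfSubring V.toSubring :=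
      Algebra.adjoin_le fun γ hγ => halg p hp hpD V hV ⟨γ, hγ⟩
    exact hle a.2

end Pool.Agent.N924.TH
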