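import Pool.Agent.R424.MP.Cnt

set_option autoImplicit false

/-! # Zeros modulo `p` of polynomials with a rational zero over a number field -/

namespace Pool.Agent.N924.TH

open MvPolynomial Finset NumberField
open Pool.Agent.R424.MP (ev CoprimeTo)

variable {s : ℕ}

/-- the value at a vector -/
noncomputable def evp {R : Type*} [CommRing R] (v : Fin (s + 1) → R) :
    Polynomial (MvPolynomial (Fin s) ℤ) →+* R :=
  Polynomial.eval₂RingHom (eval₂Hom (Int.castRingHom R) (fun i => v i.succ)) (v 0)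

theorem map_evp {R S : Type*} [CommRing R] [CommRing S] (f : R →+* S) (v : Fin (s + 1) → R)
    (h : Polynomial (MvPolynomial (Fin s) ℤ)) : f (evp v h) = evp (fun i => f (v i)) h := by
  have : f.comp (evp v) = evp (fun i => f (v i)) := by
    apply Polynomial.ringHom_ext'
    · apply MvPolynomial.ringHom_ext'
      · exact RingHom.ext_int _ _
      · intro i
        simp [evp]
    · simp [evp]
  rw [← this]
  rfl

theorem evp_int (v : Fin (s + 1) → ℤ) : evp v = ev (v 0) (fun i => v i.succ) := by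
  apply Polynomial.ringHom_ext'
  · apply MvPolynomial.ringHom_ext'
    · exact RingHom.ext_int _ _
    · intro i
      simp [evp, ev]
  · simp [evp, ev]

theorem evp_red (p : ℕ) (v : Fin (s + 1) → ℤ) (h : Polynomial (MvPolynomial (Fin s) ℤ)) :
    ((ev (v 0) (fun i => v i.succ) h : ℤ) : ZMod p) = evp (fun i => (v i : ZMod p)) h := by
  rw [← evp_int]
  exact map_evp (Int.castRingHom (ZMod p)) v h

theorem dvd_iff (p : ℕ) (v : Fin (s + 1) → ℤ) (h : Polynomial (MvPolynomial (Fin s) ℤ)) :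
    (p : ℤ) ∣ ev (v 0) (fun i => v i.succ) h ↔ evp (fun i => (v i : ZMod p)) h = 0 := by
  rw [← evp_red, ZMod.intCast_zmod_eq_zero_iff_dvd]

/-- the number of zeros modulo `p` -/
theorem card_zero {n p : ℕ} [Fact p.Prime] (f : MvPolynomial (Fin n) (ZMod p)) (hf : f ≠ 0) :
    (#{v : Fin n → ZMod p | eval v f = 0}) * p ≤ f.totalDegree * p ^ n := by
  have hp : 0 < p := (Fact.out : p.Prime).pos
  have h := schwartz_zippel_totalDegree hf Finset.univ
  rw [Fintype.piFinset_univ, Finset.card_univ, ZMod.card] at h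
  rw [div_le_div_iff₀ (by positivity) (by positivity)] at h
  exact_mod_cast h

/-- the reduction of a nonzero polynomial modulo the large primes -/
theorem map_ne_zero_of_large {σ : Type} {O : Type} [CommRing O] [IsDomain O] [Algebra.IsIntegral ℤ O]
    [FaithfulSMul ℤ O] (b : MvPolynomial σ O) (hb : b ≠ 0) :
    ∃ C : ℕ, ∀ p : ℕ, p.Prime → C < p → ∀ φ : O →+* ZMod p, map φ b ≠ 0 := by
  obtain ⟨m, hm⟩ := MvPolynomial.ne_zero_iff.mp hb
  have halg : IsAlgebraic ℤ (coeff m b) := (Algebra.IsIntegral.isIntegral (R := ℤ) (coeff m b)).isAlgebraic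
  obtain ⟨N, hN0, β, hβ⟩ := halg.exists_nonzero_dvd (mem_nonZeroDivisors_of_ne_zero hm)
  refine ⟨N.natAbs, fun p hp hlt φ h0 => ?_⟩
  have h1 : φ (coeff m b) = 0 := by
    have := congrArg (coeff m) h0
    rwa [coeff_map, coeff_zero] at this
  have h2 : ((N : ℤ) : ZMod p) = 0 := by
    have h3 : φ (algebraMap ℤ O N) = 0 := by rw [hβ, map_mul, h1, zero_mul]
    have h4 : φ (algebraMap ℤ O N) = (N : ZMod p) := by simp
    rw [← h4, h3]
  rw [ZMod.intCast_zmod_eq_zero_iff_dvd] at h2
  have h5 := Int.natAbs_dvd_natAbs.mpr h2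
  rw [Int.natAbs_natCast] at h5
  have := Nat.le_of_dvd (Int.natAbs_pos.mpr hN0) h5
  omega

/-- `h(x, t)` has the zero `x = a / b` -/
def IsRoot {O : Type} [CommRing O] (h : Polynomial (MvPolynomial (Fin s) ℤ))
    (a b : MvPolynomial (Fin s) O) : Prop :=
  b ≠ 0 ∧ ∑ j ∈ range (h.natDegree + 1), map (algebraMap ℤ O) (h.coeff j) * a ^ j *
    b ^ (h.natDegree - j) = 0

theorem evp_root {O : Type} [CommRing O] {h : Polynomial (MvPolynomial (Fin s) ℤ)}
    {a b : MvPolynomial (Fin s) O} (hab : IsRoot h a b) {F : Type} [Field F] (φ : O →+* F)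
    (τ : Fin s → F) (hb : eval₂ φ τ b ≠ 0) :
    evp (Fin.cons (eval₂ φ τ a / eval₂ φ τ b) τ : Fin (s + 1) → F) h = 0 := by
  set x := eval₂ φ τ a / eval₂ φ τ b with hx
  have hxb : x * eval₂ φ τ b = eval₂ φ τ a := div_mul_cancel₀ _ hb
  have h1 := congrArg (eval₂Hom φ τ) hab.2
  rw [map_sum, map_zero] at h1
  have h2 : evp (Fin.cons x τ : Fin (s + 1) → F) h * eval₂ φ τ b ^ h.natDegree = 0 := by
    rw [← h1]
    have e1 : evp (Fin.cons x τ : Fin (s + 1) → F) h =
        ∑ j ∈ range (h.natDegree + 1), eval₂ (Int.castRingHom F) τ (h.coeff j) * x ^ j := by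
      change Polynomial.eval₂ _ _ h = _
      rw [Polynomial.eval₂_eq_sum_range]
      simp only [Fin.cons_succ, Fin.cons_zero, coe_eval₂Hom]
    rw [e1, Finset.sum_mul]
    refine Finset.sum_congr rfl fun j hj => ?_
    have hj' : j ≤ h.natDegree := by
      rw [Finset.mem_range] at hj
      omega
    simp only [map_mul, map_pow, coe_eval₂Hom]
    rw [eval₂_map, ← hxb, mul_pow]
    have e2 : φ.comp (algebraMap ℤ O) = Int.castRingHom F := RingHom.ext_int _ _
    rw [e2]
    have e3 : eval₂ φ τ b ^ h.natDegree = eval₂ φ τ b ^ j * eval₂ φ τ b ^ (h.natDegree - j) := by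
      rw [← pow_add]
      congr 1
      omega
    rw [e3]
    ring
  rcases mul_eq_zero.mp h2 with h3 | h3
  · exact h3
  · exact absurd (pow_eq_zero_iff (n := h.natDegree) (by rintro h0; rw [h0, pow_zero] at h3; exact one_ne_zero h3) |>.mp h3) hb

theorem tdeg_map_le {σ R S : Type*} [CommSemiring R] [CommSemiring S] (f : R →+* S)
    (q : MvPolynomial σ R) : (map f q).totalDegree ≤ q.totalDegree :=
  Finset.sup_mono (support_map_subset f q)

theorem card_good {n p : ℕ} [Fact p.Prime] (f : MvPolynomial (Fin n) (ZMod p)) (hf : f ≠ 0)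
    (hp : 2 * f.totalDegree ≤ p) : p ^ n ≤ 2 * #{v : Fin n → ZMod p | eval v f ≠ 0} := by
  have hp0 : 0 < p := (Fact.out : p.Prime).pos
  have h1 := card_zero f hf
  have h2 : #{v : Fin n → ZMod p | eval v f = 0} + #{v : Fin n → ZMod p | eval v f ≠ 0} = p ^ n := by
    rw [Finset.card_filter_add_card_filter_not]
    simp [ZMod.card]
  have h3 : (2 * #{v : Fin n → ZMod p | eval v f = 0}) * p ≤ p ^ n * p := by nlinarith [pow_pos hp0 n]
  have h4 := Nat.le_of_mul_le_mul_right h3 hp0
  omega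

/-- many zeros of `h` which are not zeros of `g` modulo the primes with a residue homomorphism -/
theorem ncard_omega {O : Type} [CommRing O] [IsDomain O] [Algebra.IsIntegral ℤ O] [FaithfulSMul ℤ O]
    {h g : Polynomial (MvPolynomial (Fin s) ℤ)} (hcop : CoprimeTo h g)
    {a b : MvPolynomial (Fin s) O} (hab : IsRoot h a b) :
    ∃ C : ℕ, ∀ p : ℕ, p.Prime → C < p → ∀ _ : O →+* ZMod p,
      p ^ s ≤ 2 * {v : Fin (s + 1) → ZMod p | evp v h = 0 ∧ evp v g ≠ 0}.ncard := by
  classical
  obtain ⟨A, B, R, hR, hAB⟩ := hcop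
  obtain ⟨C₁, hC₁⟩ := map_ne_zero_of_large b hab.1
  obtain ⟨C₂, hC₂⟩ := map_ne_zero_of_large R hR
  refine ⟨C₁ + C₂ + 2 * (b.totalDegree + R.totalDegree), fun p hp hlt φ => ?_⟩
  have : Fact p.Prime := ⟨hp⟩
  have hb' := hC₁ p hp (by omega) φ
  have hR' := hC₂ p hp (by omega) (Int.castRingHom (ZMod p))
  set f : MvPolynomial (Fin s) (ZMod p) := map φ b * map (Int.castRingHom (ZMod p)) R with hf
  have hf0 : f ≠ 0 := mul_ne_zero hb' hR'
  have hdeg : f.totalDegree ≤ b.totalDegree + R.totalDegree :=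
    (totalDegree_mul _ _).trans (Nat.add_le_add (tdeg_map_le _ _) (tdeg_map_le _ _))
  have h1 := card_good f hf0 (by omega)
  refine h1.trans (Nat.mul_le_mul_left 2 ?_)
  rw [← Set.ncard_coe_finset]
  refine Set.ncard_le_ncard_of_injOn
    (fun τ : Fin s → ZMod p => (Fin.cons (eval₂ φ τ a / eval₂ φ τ b) τ : Fin (s + 1) → ZMod p))
    ?_ ?_ (Set.toFinite _)
  · intro τ hτ
    rw [Finset.mem_coe, Finset.mem_filter] at hτ
    have h2 : eval τ f ≠ 0 := hτ.2
    rw [hf, map_mul, eval_map, eval_map] at h2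
    have hbτ := left_ne_zero_of_mul h2
    have hRτ := right_ne_zero_of_mul h2
    have h3 := evp_root hab φ τ hbτ
    refine ⟨h3, fun h4 => hRτ ?_⟩
    have h5 := congrArg (evp (Fin.cons (eval₂ φ τ a / eval₂ φ τ b) τ : Fin (s + 1) → ZMod p)) hAB
    rw [map_add, map_mul, map_mul, h3, h4, mul_zero, mul_zero, add_zero] at h5
    rw [h5]
    simp [evp]
  · intro τ _ τ' _ h
    have := congrArg (fun v : Fin (s + 1) → ZMod p => fun i : Fin s => v i.succ) h
    simpa using this

theorem evp_fin {R : Type} [CommRing R] (v : Fin (s + 1) → R) (H : MvPolynomial (Fin (s + 1)) ℤ) :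
    evp v (finSuccEquiv ℤ s H) = eval₂ (Int.castRingHom R) v H := by
  have : (evp v).comp (finSuccEquiv ℤ s : MvPolynomial (Fin (s + 1)) ℤ →+* _) =
      eval₂Hom (Int.castRingHom R) v := by
    apply MvPolynomial.ringHom_ext'
    · exact RingHom.ext_int _ _
    · intro i
      refine Fin.cases ?_ (fun j => ?_) i
      · simp [evp, finSuccEquiv_X_zero]
      · simp [evp, finSuccEquiv_X_succ]
  exact congrArg (fun f => f H) this

/-- few zeros of `h` modulo `p` -/
theorem ncard_zeros {h : Polynomial (MvPolynomial (Fin s) ℤ)} (hh : h ≠ 0) :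
    ∃ C D : ℕ, ∀ p : ℕ, p.Prime → C < p →
      {v : Fin (s + 1) → ZMod p | evp v h = 0}.ncard * p ≤ D * p ^ (s + 1) := by
  classical
  set H := (finSuccEquiv ℤ s).symm h with hH
  have hhH : h = finSuccEquiv ℤ s H := by rw [hH]; simp
  have hH0 : H ≠ 0 := by
    intro h0
    apply hh
    rw [hhH, h0, map_zero]
  obtain ⟨C, hC⟩ := map_ne_zero_of_large H hH0
  refine ⟨C, H.totalDegree, fun p hp hlt => ?_⟩
  have : Fact p.Prime := ⟨hp⟩
  have h1 := card_zero _ (hC p hp hlt (Int.castRingHom (ZMod p)))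
  have e1 : {v : Fin (s + 1) → ZMod p | evp v h = 0} =
      ↑({v : Fin (s + 1) → ZMod p | eval v (map (Int.castRingHom (ZMod p)) H) = 0} : Finset _) := by
    ext v
    simp only [Set.mem_ofPred_eq, Finset.coe_filter, Finset.mem_univ, true_and]
    rw [hhH, evp_fin, eval_map]
  rw [e1, Set.ncard_coe_finset]
  exact h1.trans (Nat.mul_le_mul_right _ (tdeg_map_le _ _))

end Pool.Agent.N924.TH
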